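import Pool.Agent.Helper24.KK.GoalsA

/-!
Packet KK-FRM: the quadratic form of the matrix at the test vector.
-/

set_option autoImplicit false

namespace Pool.Agent.Helper79.KK

open Finset Pool.Agent.Helper24.KK

lemma prod_sq_one {Φ : Type} [DecidableEq Φ] (F : Φ → ℝ) (hF : ∀ s, F s = 1 ∨ F s = -1)
    (S : Finset Φ) : (∏ s ∈ S, F s) * (∏ s ∈ S, F s) = 1 := by
  rw [← Finset.prod_mul_distrib]
  refine Finset.prod_eq_one fun s _ => ?_
  rcases hF s with h | h <;> rw [h] <;> norm_num

lemma mv_prod {Φ : Type} [DecidableEq Φ] (F : Φ → ℝ) (hF : ∀ s, F s = 1 ∨ F s = -1)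
    {s t : Φ} {S T : Finset Φ} (h : Mv s t S T) :
    (∏ a ∈ S, F a) * (∏ a ∈ T, F a) = F s * F t := by
  obtain ⟨hs, ht, rfl⟩ := h
  rw [← Finset.mul_prod_erase S F hs,
    Finset.prod_insert (fun h => ht (Finset.mem_of_mem_erase h))]
  calc F s * (∏ x ∈ S.erase s, F x) * (F t * ∏ x ∈ S.erase s, F x)
      = F s * F t * ((∏ x ∈ S.erase s, F x) * ∏ x ∈ S.erase s, F x) := by ring
    _ = F s * F t := by rw [prod_sq_one F hF, mul_one]

lemma ent_wv {Φ Mm : Type} [DecidableEq Φ] {l : ℕ} (u v : ℕ → Mm → Φ) (n k : ℕ) (m : Mm)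
    (F G : Φ → ℝ) (hF : ∀ s, F s = 1 ∨ F s = -1) (hG : ∀ s, G s = 1 ∨ G s = -1)
    (I J : Ix Φ l) (h : Ent u v n k m I J) :
    wv F G I * wv F G J = (F (u n m) * F (u k m)) * (G (v n m) * G (v k m)) := by
  obtain ⟨h1, h2⟩ := h
  have e1 := mv_prod F hF h1
  have e2 := mv_prod G hG h2
  unfold wv
  calc ((∏ s ∈ I.1.1, F s) * ∏ s ∈ I.2.1, G s) * ((∏ s ∈ J.1.1, F s) * ∏ s ∈ J.2.1, G s)
      = ((∏ s ∈ I.1.1, F s) * ∏ s ∈ J.1.1, F s) * ((∏ s ∈ I.2.1, G s) * ∏ s ∈ J.2.1, G s) := by
        ring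
    _ = _ := by rw [e1, e2]; ring

/-- Packet KK-FRM. -/
theorem frm : FRM := by
  classical
  intro Φ Mm _ _ _ _ l x u v Δ n F G hdz hF hG hnk
  have hkey : ∀ k ∈ range n, ∀ m : Mm,
      ∑ I : Ix Φ l, ∑ J : Ix Φ l,
        (if Kept x u v Δ n k m I J then wt l x u v Δ n k m else 0) * (wv F G I * wv F G J) =
      if v k m = v n m then 0 else (F (u n m) * F (u k m)) * (G (v n m) * G (v k m)) := by
    intro k hk m
    by_cases hv : v k m = v n m
    · rw [if_pos hv]
      refine Finset.sum_eq_zero fun I _ => Finset.sum_eq_zero fun J _ => ?_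
      rw [if_neg, zero_mul]
      rintro ⟨⟨-, h2⟩, -⟩
      exact h2.2.1 (hv ▸ h2.1)
    · rw [if_neg hv]
      have hN := hnk k (Finset.mem_range.mp hk) m hv
      have hNpos : (0 : ℝ) < (nk l x u v Δ n k m : ℝ) := by linarith
      have hwt : wt l x u v Δ n k m = ((nk l x u v Δ n k m : ℝ))⁻¹ := by
        unfold wt
        rw [if_pos hN]
      have hterm : ∀ I J : Ix Φ l,
          (if Kept x u v Δ n k m I J then wt l x u v Δ n k m else 0) * (wv F G I * wv F G J) =
          if Kept x u v Δ n k m I J then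
            wt l x u v Δ n k m * ((F (u n m) * F (u k m)) * (G (v n m) * G (v k m))) else 0 := by
        intro I J
        by_cases hK : Kept x u v Δ n k m I J
        · rw [if_pos hK, if_pos hK, ent_wv u v n k m F G hF hG I J hK.1]
        · rw [if_neg hK, if_neg hK, zero_mul]
      have hcard : (∑ I : Ix Φ l, ∑ J : Ix Φ l, if Kept x u v Δ n k m I J then
            wt l x u v Δ n k m * ((F (u n m) * F (u k m)) * (G (v n m) * G (v k m))) else 0) =
          (nk l x u v Δ n k m : ℝ) *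
            (wt l x u v Δ n k m * ((F (u n m) * F (u k m)) * (G (v n m) * G (v k m)))) := by
        rw [← Fintype.sum_prod_type' (f := fun I J : Ix Φ l => if Kept x u v Δ n k m I J then
            wt l x u v Δ n k m * ((F (u n m) * F (u k m)) * (G (v n m) * G (v k m))) else 0)]
        rw [← Finset.sum_filter, Finset.sum_const, nsmul_eq_mul]
        unfold nk
        rfl
      rw [Finset.sum_congr rfl fun I _ => Finset.sum_congr rfl fun J _ => hterm I J, hcard, hwt,
        ← mul_assoc, mul_inv_cancel₀ hNpos.ne', one_mul]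
  have hL : ∑ I : Ix Φ l, ∑ J : Ix Φ l, kA x u v Δ n I J * (wv F G I * wv F G J) =
      ∑ k ∈ range n, x k * ∑ m : Mm, ∑ I : Ix Φ l, ∑ J : Ix Φ l,
        (if Kept x u v Δ n k m I J then wt l x u v Δ n k m else 0) * (wv F G I * wv F G J) := by
    have h1 : ∀ I J : Ix Φ l, kA x u v Δ n I J * (wv F G I * wv F G J) =
        ∑ k ∈ range n, ∑ m : Mm, x k *
          ((if Kept x u v Δ n k m I J then wt l x u v Δ n k m else 0) *
            (wv F G I * wv F G J)) := by
      intro I J
      unfold kA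
      rw [Finset.sum_mul]
      refine Finset.sum_congr rfl fun k _ => ?_
      rw [mul_assoc, Finset.sum_mul, Finset.mul_sum]
    rw [Finset.sum_congr rfl fun I _ => Finset.sum_congr rfl fun J _ => h1 I J]
    have h2 : ∀ I : Ix Φ l, ∑ J : Ix Φ l, ∑ k ∈ range n, ∑ m : Mm, x k *
          ((if Kept x u v Δ n k m I J then wt l x u v Δ n k m else 0) *
            (wv F G I * wv F G J)) =
        ∑ k ∈ range n, ∑ m : Mm, ∑ J : Ix Φ l, x k *
          ((if Kept x u v Δ n k m I J then wt l x u v Δ n k m else 0) *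
            (wv F G I * wv F G J)) := by
      intro I
      rw [Finset.sum_comm]
      exact Finset.sum_congr rfl fun k _ => Finset.sum_comm
    rw [Finset.sum_congr rfl fun I _ => h2 I, Finset.sum_comm]
    refine Finset.sum_congr rfl fun k _ => ?_
    rw [Finset.sum_comm, Finset.mul_sum]
    refine Finset.sum_congr rfl fun m _ => ?_
    rw [Finset.mul_sum]
    refine Finset.sum_congr rfl fun I _ => ?_
    rw [Finset.mul_sum]
  rw [hL]
  unfold mainS
  refine Finset.sum_congr rfl fun k hk => ?_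
  congr 1
  exact Finset.sum_congr rfl fun m _ => hkey k hk m

end Pool.Agent.Helper79.KK
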